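import Pool.Agent.helper23.CO.SpecB

/-!
# Project co (MP_7c3fb3_pr), row UPQ: upper bound for the quadratic form and the squared magnetisation
-/

open Finset Filter Topology

namespace CO

open CU

private lemma UPQ_ex {V : Type} [Fintype V] [DecidableEq V] (K : V → V → ℝ) (g : V → ℝ)
    (W : V → V → ℝ) (c : ℝ) :
    ex K g (fun σ => c * ∑ x, ∑ y, W x y * (CU.sg (σ x) * CU.sg (σ y))) =
      c * ∑ x, ∑ y, W x y * c2 K g x y := by
  unfold c2 ex
  have h1 : ∀ σ : V → Bool, Real.exp (CWM.HH K g σ) *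
      (c * ∑ x, ∑ y, W x y * (CU.sg (σ x) * CU.sg (σ y))) =
      c * ∑ x, ∑ y, W x y * (Real.exp (CWM.HH K g σ) * (CU.sg (σ x) * CU.sg (σ y))) := by
    intro σ
    rw [mul_left_comm, Finset.mul_sum]
    congr 1
    refine Finset.sum_congr rfl fun x _ => ?_
    rw [Finset.mul_sum]
    refine Finset.sum_congr rfl fun y _ => ?_
    ring
  simp only [h1]
  rw [← Finset.mul_sum, mul_div_assoc]
  congr 1
  rw [Finset.sum_comm, Finset.sum_div]
  refine Finset.sum_congr rfl fun x _ => ?_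
  rw [Finset.sum_comm, Finset.sum_div]
  refine Finset.sum_congr rfl fun y _ => ?_
  rw [← Finset.mul_sum, mul_div_assoc]

private lemma UPQ_le {V : Type} [Fintype V] [DecidableEq V] (K : V → V → ℝ) (g : V → ℝ)
    (x y : V) : c2 K g x y ≤ 1 := by
  unfold c2 ex
  have hZ : 0 < ∑ σ : V → Bool, Real.exp (CWM.HH K g σ) :=
    Finset.sum_pos (fun σ _ => Real.exp_pos _) Finset.univ_nonempty
  rw [div_le_one hZ]
  refine Finset.sum_le_sum fun σ _ => ?_
  have h1 : CU.sg (σ x) * CU.sg (σ y) ≤ 1 := by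
    unfold CU.sg
    split_ifs <;> norm_num
  calc Real.exp (CWM.HH K g σ) * (CU.sg (σ x) * CU.sg (σ y)) ≤ Real.exp (CWM.HH K g σ) * 1 :=
        mul_le_mul_of_nonneg_left h1 (Real.exp_pos _).le
    _ = _ := mul_one _

private lemma UPQ_shift {d n : ℕ} [NeZero n] (F : Site d n → ℝ) :
    ∑ x : Site d n, ∑ y : Site d n, F (y - x) = (Fintype.card (Site d n) : ℝ) * ∑ z, F z := by
  have h1 : ∀ x : Site d n, ∑ y : Site d n, F (y - x) = ∑ z, F z := fun x =>
    Fintype.sum_equiv (Equiv.subRight x) _ _ (fun _ => rfl)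
  simp only [h1]
  rw [Finset.sum_const, nsmul_eq_mul, Finset.card_univ]

theorem UPQ (hUPB : UPB_stmt) (hTRI : TRI_stmt) (hBC : CU.BC_stmt) : UPQ_stmt := by
  intro d β κ θ hd hβ hκ hθ
  obtain ⟨L, hL⟩ := hUPB d β (κ / 4) (2 * θ) hβ (by linarith) (by linarith)
  have hev : ∀ᶠ n : ℕ in atTop, (4 * (L : ℝ) + 3) ^ d * 9 / (κ / 2) ≤ (n : ℝ) :=
    tendsto_natCast_atTop_atTop.eventually_ge_atTop _
  filter_upwards [hL, hev] with n hn hnL
  intro k a ha0 ha1 hk hks
  set N : ℝ := (Fintype.card (Site d (n + 3)) : ℝ) with hN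
  have hNv : N = ((n : ℝ) + 3) ^ d := by
    rw [hN]
    simp [Site, ZMod.card]
  have hn3 : (1 : ℝ) ≤ (n : ℝ) + 3 := by
    have : (0 : ℝ) ≤ n := Nat.cast_nonneg _
    linarith
  have hn0 : (0 : ℝ) < (n : ℝ) + 3 := by linarith
  have hNge : (n : ℝ) + 3 ≤ N := by
    rw [hNv]
    calc (n : ℝ) + 3 = ((n : ℝ) + 3) ^ 1 := (pow_one _).symm
      _ ≤ _ := pow_le_pow_right₀ hn3 hd
  have hN0 : 0 < N := by linarith
  have hNpow : ((n : ℝ) + 3) ^ (d - 1) * ((n : ℝ) + 3) = N := by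
    rw [hNv, ← pow_succ]
    congr 1
    omega
  set J : Site d (n + 3) → ℝ := fun z => θ * (((n + 3 : ℕ) : ℝ) ^ (d - 1) * (a * k z + 1 / N) / N) with hJ
  have hcast : ((n + 3 : ℕ) : ℝ) = (n : ℝ) + 3 := by push_cast; ring
  have hw0 : ∀ z, 0 ≤ a * k z + 1 / N := fun z => by
    have := (hk z).1
    positivity
  have hJ0 : ∀ z, 0 ≤ J z := by
    intro z
    have := hw0 z
    rw [hJ]
    positivity
  have hws : ∑ z : Site d (n + 3), (a * k z + 1 / N) = a + 1 := by
    rw [Finset.sum_add_distrib, ← Finset.mul_sum, hks, Finset.sum_const, nsmul_eq_mul,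
      Finset.card_univ, ← hN, mul_one_div_cancel hN0.ne', mul_one]
  have hJs : ∑ z, J z ≤ 2 * θ / ((n : ℝ) + 3) := by
    have h1 : ∑ z, J z = θ * (a + 1) / ((n : ℝ) + 3) := by
      have h2 : ∀ z, J z = (θ * ((n : ℝ) + 3) ^ (d - 1) / N) * (a * k z + 1 / N) := by
        intro z
        rw [hJ]
        simp only [hcast]
        ring
      simp only [h2]
      rw [← Finset.mul_sum, hws]
      have h3 : ((n : ℝ) + 3) ^ (d - 1) / N = 1 / ((n : ℝ) + 3) := by
        rw [div_eq_div_iff hN0.ne' hn0.ne', one_mul]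
        exact hNpow
      calc θ * ((n : ℝ) + 3) ^ (d - 1) / N * (a + 1) = θ * (a + 1) * (((n : ℝ) + 3) ^ (d - 1) / N) := by ring
        _ = θ * (a + 1) / ((n : ℝ) + 3) := by rw [h3]; ring
    rw [h1]
    apply div_le_div_of_nonneg_right _ hn0.le
    nlinarith
  have hfar := (hn J 0 le_rfl (by positivity) hJ0 hJs).2
  -- the expectation
  have hexp : ex (KT β J) (fun _ => 0) (fun σ => a * Qf k σ + (Mg σ / N) ^ 2) =
      ∑ z, (a * k z + 1 / N) * cT β J 0 z := by
    have h1 : (fun σ : Conf d (n + 3) => a * Qf k σ + (Mg σ / N) ^ 2) =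
        fun σ => (1 / N) * ∑ x, ∑ y, (a * k (y - x) + 1 / N) * (CU.sg (σ x) * CU.sg (σ y)) := by
      funext σ
      unfold Qf Mg
      rw [← hN]
      have h2 : ∑ x, ∑ y, (a * k (y - x) + 1 / N) * (CU.sg (σ x) * CU.sg (σ y)) =
          a * (∑ x, ∑ y, k (y - x) * (CU.sg (σ x) * CU.sg (σ y))) +
          1 / N * (∑ x, CU.sg (σ x)) ^ 2 := by
        rw [pow_two, Finset.sum_mul_sum, Finset.mul_sum, Finset.mul_sum, ← Finset.sum_add_distrib]
        refine Finset.sum_congr rfl fun x _ => ?_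
        rw [Finset.mul_sum, Finset.mul_sum, ← Finset.sum_add_distrib]
        refine Finset.sum_congr rfl fun y _ => ?_
        ring
      rw [h2]
      field_simp
    rw [h1, UPQ_ex]
    have h3 : ∀ x y : Site d (n + 3), (a * k (y - x) + 1 / N) * c2 (KT β J) (fun _ => 0) x y =
        (fun z => (a * k z + 1 / N) * cT β J 0 z) (y - x) := by
      intro x y
      rw [(hTRI d (n + 3) β 0 J).1 x y]
    simp only [h3]
    rw [UPQ_shift (fun z => (a * k z + 1 / N) * cT β J 0 z), ← hN, ← mul_assoc,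
      one_div_mul_cancel hN0.ne', one_mul]
  show ex (KT β J) (fun _ => 0) (fun σ => a * Qf k σ + (Mg σ / N) ^ 2) ≤ _
  rw [hexp]
  -- splitting
  set B : Finset (Site d (n + 3)) := Box (2 * L + 1) 0 with hB
  have hBc : (B.card : ℝ) ≤ (4 * (L : ℝ) + 3) ^ d := by
    have h1 := hBC d (n + 3) (2 * L + 1) 0
    have h2 : ((B.card : ℕ) : ℝ) ≤ (((2 * (2 * L + 1) + 1) ^ d : ℕ) : ℝ) := by exact_mod_cast h1
    refine le_trans h2 (le_of_eq ?_)
    push_cast
    congr 1
    ring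
  have hms : 0 ≤ ms d β ^ 2 + κ / 4 := by positivity
  have hpt : ∀ z, (a * k z + 1 / N) * cT β J 0 z ≤
      (a * k z + 1 / N) * (ms d β ^ 2 + κ / 4) + (if z ∈ B then 9 / N else 0) := by
    intro z
    by_cases hz : z ∈ B
    · rw [if_pos hz]
      have h1 : a * k z + 1 / N ≤ 9 / N := by
        have h2 : a * k z ≤ 8 / N := by
          calc a * k z ≤ 1 * k z := mul_le_mul_of_nonneg_right ha1 (hk z).1
            _ = k z := one_mul _
            _ ≤ 8 / N := (hk z).2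
        have h3 : (9 : ℝ) / N = 8 / N + 1 / N := by ring
        rw [h3]
        linarith
      have h4 : (a * k z + 1 / N) * cT β J 0 z ≤ (a * k z + 1 / N) * 1 :=
        mul_le_mul_of_nonneg_left (UPQ_le _ _ _ _) (hw0 z)
      have h5 : 0 ≤ (a * k z + 1 / N) * (ms d β ^ 2 + κ / 4) := mul_nonneg (hw0 z) hms
      linarith
    · rw [if_neg hz, add_zero]
      apply mul_le_mul_of_nonneg_left _ (hw0 z)
      apply hfar z
      intro hnear
      apply hz
      rw [hB]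
      exact Finset.mem_filter.mpr ⟨Finset.mem_univ _, hnear⟩
  have hsum : ∑ z, (a * k z + 1 / N) * cT β J 0 z ≤
      (a + 1) * (ms d β ^ 2 + κ / 4) + (B.card : ℝ) * (9 / N) := by
    calc ∑ z, (a * k z + 1 / N) * cT β J 0 z ≤ ∑ z, ((a * k z + 1 / N) * (ms d β ^ 2 + κ / 4) +
          (if z ∈ B then 9 / N else 0)) := Finset.sum_le_sum fun z _ => hpt z
      _ = _ := by
        rw [Finset.sum_add_distrib, ← Finset.sum_mul, hws, Finset.sum_ite_mem, Finset.univ_inter,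
          Finset.sum_const, nsmul_eq_mul]
  have hlast : (B.card : ℝ) * (9 / N) ≤ κ / 2 := by
    have h1 : (4 * (L : ℝ) + 3) ^ d * 9 ≤ (n : ℝ) * (κ / 2) := by
      rwa [div_le_iff₀ (by linarith)] at hnL
    rw [← mul_div_assoc, div_le_iff₀ hN0]
    calc (B.card : ℝ) * 9 ≤ (4 * (L : ℝ) + 3) ^ d * 9 := by linarith
      _ ≤ (n : ℝ) * (κ / 2) := h1
      _ ≤ κ / 2 * N := by nlinarith
  have hfin : (a + 1) * (κ / 4) ≤ κ / 2 := by nlinarith
  calc ∑ z, (a * k z + 1 / N) * cT β J 0 z ≤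
      (a + 1) * (ms d β ^ 2 + κ / 4) + (B.card : ℝ) * (9 / N) := hsum
    _ ≤ (a + 1) * ms d β ^ 2 + κ := by nlinarith

end CO
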